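import Pool.Agent.QSB.StmtsE

set_option autoImplicit false

/-! # Squad QSB, row RYD: the roots of `SL_n (𝔻)` -/

namespace Pool.Agent.QSB.H70

open Matrix Finset Pool.Agent.QSX Pool.Agent.QSN Pool.Agent.QSB

theorem rootD {k n : ℕ} {𝔻 : Subalgebra ℝ (Matrix (Fin k) (Fin k) ℝ)}
    {ρ : (datD n 𝔻).b →ₗ[ℝ] ℝ} (h : IsRt (datD n 𝔻) ρ) :
    ∃ i j : Fin n, i < j ∧ ∀ (d : Fin n → ℝ) (hd : ∑ l, d l = 0),
      ρ ⟨cst k n d, ⟨d, hd, rfl⟩⟩ = d i - d j := by
  obtain ⟨z, ⟨hz, hw⟩, hne⟩ := h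
  obtain ⟨x, hx, rfl⟩ := hz
  have h1 : ∃ p q, blk k n x p q ≠ 0 := by
    by_contra hc
    push Not at hc
    apply hne
    ext p q
    exact hc p q
  obtain ⟨p, q, hpq⟩ := h1
  obtain ⟨⟨i, a⟩, rfl⟩ := finProdFinEquiv.surjective p
  obtain ⟨⟨j, b⟩, rfl⟩ := finProdFinEquiv.surjective q
  refine ⟨i, j, ?_, ?_⟩
  · by_contra hij
    rw [not_lt] at hij
    rw [blk_apply, hx.2 i j hij] at hpq
    exact hpq rfl
  · intro d hd
    have h2 := hw ⟨cst k n d, ⟨d, hd, rfl⟩⟩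
    have h3 : (diagonal (cst k n d) * blk k n x) (finProdFinEquiv (i, a)) (finProdFinEquiv (j, b)) -
        (blk k n x * diagonal (cst k n d)) (finProdFinEquiv (i, a)) (finProdFinEquiv (j, b)) =
        ρ ⟨cst k n d, ⟨d, hd, rfl⟩⟩ *
          blk k n x (finProdFinEquiv (i, a)) (finProdFinEquiv (j, b)) :=
      congrFun (congrFun h2 (finProdFinEquiv (i, a))) (finProdFinEquiv (j, b))
    have h4 : (diagonal (cst k n d) * blk k n x) (finProdFinEquiv (i, a)) (finProdFinEquiv (j, b))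
        = d i * blk k n x (finProdFinEquiv (i, a)) (finProdFinEquiv (j, b)) := by
      rw [Matrix.diagonal_mul, cst_apply]
    have h5 : (blk k n x * diagonal (cst k n d)) (finProdFinEquiv (i, a)) (finProdFinEquiv (j, b))
        = blk k n x (finProdFinEquiv (i, a)) (finProdFinEquiv (j, b)) * d j := by
      rw [Matrix.mul_diagonal, cst_apply]
    have h6 : (d i - d j) * blk k n x (finProdFinEquiv (i, a)) (finProdFinEquiv (j, b)) =
        ρ ⟨cst k n d, ⟨d, hd, rfl⟩⟩ *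
          blk k n x (finProdFinEquiv (i, a)) (finProdFinEquiv (j, b)) := by
      refine Eq.trans ?_ h3
      refine Eq.trans ?_ (congrArg₂ (fun u v => u - v) h4 h5).symm
      ring
    exact (mul_right_cancel₀ hpq h6).symm

theorem pairD {n : ℕ} {i j i' j' : Fin n} (hij : i < j) (hij' : i' < j') {c : ℝ}
    (h : ∀ d : Fin n → ℝ, ∑ l, d l = 0 → c * (d i - d j) = d i' - d j') : c = 1 := by
  have hn : (n : ℝ) ≠ 0 := by
    have : 0 < n := lt_of_le_of_lt (Nat.zero_le _) i.2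
    exact_mod_cast this.ne'
  have g : ∀ d : Fin n → ℝ, c * (d i - d j) = d i' - d j' := by
    intro d
    have h1 := h (fun l => d l - (∑ m, d m) / n) (by
      rw [Finset.sum_sub_distrib, Finset.sum_const, Finset.card_univ, Fintype.card_fin,
        nsmul_eq_mul, mul_div_cancel₀ _ hn, sub_self])
    have h2 : ∀ u v w : ℝ, u - w - (v - w) = u - v := fun u v w => by ring
    rw [h2, h2] at h1
    exact h1
  have g1 := g (Pi.single i' 1)
  rw [Pi.single_eq_same, Pi.single_eq_of_ne hij'.ne'] at g1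
  by_cases h1 : i = i'
  · subst h1
    rw [Pi.single_eq_same, Pi.single_eq_of_ne hij.ne'] at g1
    linarith
  · rw [Pi.single_eq_of_ne h1] at g1
    by_cases h2 : j = i'
    · subst h2
      have g2 := g (Pi.single j' 1)
      rw [Pi.single_eq_same, Pi.single_eq_of_ne hij'.ne, Pi.single_eq_of_ne (hij.trans hij').ne]
        at g2
      norm_num at g2
    · rw [Pi.single_eq_of_ne h2] at g1
      norm_num at g1

theorem rootD_one {k n : ℕ} {𝔻 : Subalgebra ℝ (Matrix (Fin k) (Fin k) ℝ)}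
    {ρ : (datD n 𝔻).b →ₗ[ℝ] ℝ} {c : ℝ} (h : IsRt (datD n 𝔻) ρ) (h' : IsRt (datD n 𝔻) (c • ρ)) :
    c = 1 := by
  obtain ⟨i, j, hij, h1⟩ := rootD h
  obtain ⟨i', j', hij', h2⟩ := rootD h'
  refine pairD hij hij' fun d hd => ?_
  rw [← h1 d hd, ← h2 d hd]
  rfl

/-- **RYD**. -/
theorem ryd : RydStmt := by
  intro k n 𝔻 _
  refine ⟨fun ρ c h h' => Or.inl (rootD_one h h'), fun ρ h h' => ?_⟩
  have := rootD_one h h'
  norm_num at this

end Pool.Agent.QSB.H70

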