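import Pool.Agent.QSB.StmtsX4

/-!
Squad QSB (MP_dc0713_gt), row `DL4`: the defect vanishes (after the file `Helper85_QSB/DLT.lean` of
helper85, with one more case).
-/

set_option autoImplicit false

namespace Pool.Agent.QSB.H70

open Matrix Finset Pool.Agent.QSX Pool.Agent.QSB

/-- `γ + β` and `β` are not proportional -/
theorem dl4_npr {W : Type} [AddCommGroup W] [Module ℝ W] {β γ : W →ₗ[ℝ] ℝ} (h : NPr γ β)
    (hβ : β ≠ 0) : NPr (γ + β) β := by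
  refine ⟨fun c hc => h.1 (c - 1) (LinearMap.ext fun v => ?_), fun c hc => ?_⟩
  · have h1 := LinearMap.congr_fun hc v
    simp only [LinearMap.add_apply, LinearMap.smul_apply, smul_eq_mul] at h1 ⊢
    linarith
  · have hc0 : c ≠ 0 := by
      rintro rfl
      apply hβ
      refine LinearMap.ext fun v => ?_
      have h1 := LinearMap.congr_fun hc v
      simp only [LinearMap.add_apply, LinearMap.smul_apply, smul_eq_mul, zero_mul] at h1
      exact h1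
    refine h.1 (c⁻¹ - 1) (LinearMap.ext fun v => ?_)
    have h1 := LinearMap.congr_fun hc v
    simp only [LinearMap.add_apply, LinearMap.smul_apply, smul_eq_mul] at h1 ⊢
    field_simp
    linarith

/-- the row `DL4` -/
theorem dl4 (hBWT : BwtStmt) (hJCB : JcbStmt) (hJCC : JccStmt) : Dl4Stmt := by
  intro X Y T g hTn hTi hg hBr hW hRX hRQ hS ρ c x y hx hy
  have hRY := hRQ.rr
  obtain ⟨bw1, bw2⟩ := hBWT
  -- transport of the roots
  have tr : ∀ (σ : X.b →ₗ[ℝ] ℝ) (z : X.n), RtV X σ (z : Matrix (Fin X.m) (Fin X.m) ℝ) →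
      RtV Y (σ ∘ₗ g) (T z) := by
    intro σ z hz
    refine ⟨hW σ z hz.1, fun h0 => hz.2 ?_⟩
    have h1 : z = 0 := hTi (by rw [h0, map_zero])
    rw [h1]; rfl
  have trI : ∀ (σ : X.b →ₗ[ℝ] ℝ), IsRt X σ → IsRt Y (σ ∘ₗ g) := by
    rintro σ ⟨z, hz⟩
    exact ⟨T ⟨z, hz.1.1⟩, tr σ ⟨z, hz.1.1⟩ hz⟩
  have inj : ∀ (σ τ : X.b →ₗ[ℝ] ℝ), σ ∘ₗ g = τ ∘ₗ g → σ = τ := by
    intro σ τ h
    refine LinearMap.ext fun v => ?_
    obtain ⟨w, rfl⟩ := hg.2 v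
    exact LinearMap.congr_fun h w
  have trN : ∀ (σ τ : X.b →ₗ[ℝ] ℝ), NPr σ τ → NPr (σ ∘ₗ g) (τ ∘ₗ g) := by
    intro σ τ h
    refine ⟨fun d hd => h.1 d (inj _ _ ?_), fun d hd => h.2 d (inj _ _ ?_)⟩
    · rw [hd, LinearMap.smul_comp]
    · rw [hd, LinearMap.smul_comp]
  have hρX : IsRt X ρ := ⟨_, hx⟩
  have hρY : IsRt Y (ρ ∘ₗ g) := trI ρ hρX
  have hc := hRX ρ c hρX ⟨_, hy⟩
  have hc0 : 0 < c := by
    rcases hc with h | h | h <;> rw [h] <;> norm_num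
  -- the defect
  by_contra hne
  have hδ0 : T x * T y - T y * T x - T ⟨_, X.lie x x.2 y y.2⟩ ≠ 0 := by
    intro h
    exact hne (sub_eq_zero.mp h).symm
  have hδw : WtV Y ((1 + c) • (ρ ∘ₗ g))
      (T x * T y - T y * T x - T ⟨_, X.lie x x.2 y y.2⟩) := by
    have h1 := bw1 Y _ _ _ _ (hW ρ x hx.1) (hW (c • ρ) y hy.1)
    have h2 := hW (ρ + c • ρ) ⟨_, X.lie x x.2 y y.2⟩ (bw1 X ρ (c • ρ) _ _ hx.1 hy.1)
    have e1 : ρ ∘ₗ g + (c • ρ) ∘ₗ g = (1 + c) • (ρ ∘ₗ g) := by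
      rw [LinearMap.smul_comp, add_smul, one_smul]
    have e2 : (ρ + c • ρ) ∘ₗ g = (1 + c) • (ρ ∘ₗ g) := by
      rw [LinearMap.add_comp, LinearMap.smul_comp, add_smul, one_smul]
    rw [e1] at h1
    rw [e2] at h2
    refine ⟨Y.n.sub_mem h1.1 h2.1, fun d => ?_⟩
    have h3 := h1.2 d
    have h4 := h2.2 d
    rw [mul_sub, sub_mul, smul_sub, ← h3, ← h4]
    abel
  have hδ : RtV Y ((1 + c) • (ρ ∘ₗ g))
      (T x * T y - T y * T x - T ⟨_, X.lie x x.2 y y.2⟩) := ⟨hδw, hδ0⟩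
  have hc1 : c = 1 := by
    rcases hc with h | h | h
    · exact h
    · exfalso
      have := hRY.ray (ρ ∘ₗ g) (1 + c) hρY ⟨_, hδ⟩
      rw [h] at this
      norm_num at this
    · exfalso
      have := hRY.ray (ρ ∘ₗ g) (1 + c) hρY ⟨_, hδ⟩
      rw [h] at this
      norm_num at this
  have e11 : (1 : ℝ) + c = 2 := by rw [hc1]; norm_num
  rw [e11] at hδ
  -- the case of a `γ`
  have key : ∀ γ : X.b →ₗ[ℝ] ℝ, IsRt X γ → NPr γ ρ → IsRt Y ((2 : ℝ) • (ρ ∘ₗ g) + γ ∘ₗ g) →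
      False := by
    rintro γ ⟨u, hu⟩ hn hI
    exact hRY.inj (ρ ∘ₗ g) (γ ∘ₗ g) _ (T ⟨u, hu.1.1⟩) hρY hδ (tr γ ⟨u, hu.1.1⟩ hu) hI
      (hJCC X Y.m T hBr ρ γ hn c hc0 x y ⟨u, hu.1.1⟩ hx.1 hy.1 hu.1)
  rcases hS with hS3 | hRed
  · rcases hS3 ρ hρX with h | ⟨σ, hσ, h⟩ | h | ⟨γ, hγ, hγ2⟩ | ⟨γ, γ', hγ, hγ', hn, hn', h1, h2, h3⟩ |
      ⟨β, γ, hβ, hγ, n1, n2, n3, n4, r1, r2, r3, nr⟩
    · exact hne (hJCB X Y.m T hBr ρ h c hc0 x y hx hy.1)
    · have h4 : IsRt Y ((4 : ℝ) • (σ ∘ₗ g)) := by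
        have e : (4 : ℝ) • (σ ∘ₗ g) = (2 : ℝ) • (ρ ∘ₗ g) := by
          rw [h, LinearMap.smul_comp, smul_smul]; norm_num
        rw [e]
        exact ⟨_, hδ⟩
      have := hRY.ray (σ ∘ₗ g) 4 (trI σ hσ) h4
      norm_num at this
    · have hy' : RtV X ρ (y : Matrix (Fin X.m) (Fin X.m) ℝ) := by
        have := hy
        rwa [hc1, one_smul] at this
      obtain ⟨d, hd⟩ := h _ _ hx hy'
      have hyd : y = d • x := Subtype.ext (by rw [hd]; rfl)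
      have e0 : (⟨_, X.lie x x.2 y y.2⟩ : X.n) = 0 := by
        refine Subtype.ext ?_
        change (x : Matrix (Fin X.m) (Fin X.m) ℝ) * y - y * x = 0
        rw [hd, Matrix.mul_smul, Matrix.smul_mul, sub_self]
      apply hne
      rw [e0, map_zero, hyd, map_smul, Matrix.mul_smul, Matrix.smul_mul, sub_self]
    · refine key γ hγ ?_ ?_
      · have aux : ∀ d : ℝ, γ ≠ d • ρ := by
          intro d hd
          have h1 := hRX ρ d hρX (hd ▸ hγ)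
          have e : (2 : ℝ) • ρ + γ = (2 + d) • ρ := by rw [hd, add_smul]
          rw [e] at hγ2
          have h2 := hRX ρ (2 + d) hρX hγ2
          rcases h1 with h | h | h <;> rw [h] at h2 <;> norm_num at h2
        refine ⟨aux, fun d hd => ?_⟩
        have hd0 : d ≠ 0 := by
          intro h0
          exact bw2 X hRX ρ hρX (by rw [hd, h0, zero_smul])
        exact aux d⁻¹ (by rw [hd, smul_smul, inv_mul_cancel₀ hd0, one_smul])
      · have := trI _ hγ2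
        rwa [LinearMap.add_comp, LinearMap.smul_comp] at this
    · have g1 := trI _ h1
      have g2 := trI _ h2
      have g3 := trI _ h3
      rw [LinearMap.add_comp] at g1 g2 g3
      rw [LinearMap.add_comp] at g3
      rcases hRY.two (ρ ∘ₗ g) (γ ∘ₗ g) (γ' ∘ₗ g) hρY ⟨_, hδ⟩ (trI γ hγ) (trI γ' hγ')
        (trN _ _ hn) (trN _ _ hn') g1 g2 g3 with h | h
      · exact key γ hγ hn h
      · exact key γ' hγ' hn' h
    · have g1 := trI _ r1
      have g2 := trI _ r2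
      have g3 := trI _ r3
      have g4 := trN _ _ n4
      rw [LinearMap.add_comp] at g1 g2 g3 g4
      rw [LinearMap.add_comp] at g3
      rcases hRQ.thr (ρ ∘ₗ g) (β ∘ₗ g) (γ ∘ₗ g) hρY ⟨_, hδ⟩ (trI β hβ) (trI γ hγ)
        (trN _ _ n1) (trN _ _ n2) (trN _ _ n3) g4 g1 g2 g3 with h | h | h | h
      · exact key β hβ n1 h
      · exact key γ hγ n2 h
      · rw [← LinearMap.add_comp] at h
        exact key (β + γ) r2 n4 h
      · obtain ⟨u₀, hu⟩ := hβ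
        obtain ⟨w₀, hw⟩ := hγ
        have hβ0 : β ≠ 0 := bw2 X hRX β ⟨u₀, hu⟩
        have b1 := hBr γ β n3 ⟨w₀, hw.1.1⟩ ⟨u₀, hu.1.1⟩ hw.1 hu.1
        have wt1 := bw1 X γ β w₀ u₀ hw.1 hu.1
        have b2 := hBr (γ + β) β (dl4_npr n3 hβ0) ⟨_, X.lie w₀ hw.1.1 u₀ hu.1.1⟩ ⟨u₀, hu.1.1⟩
          wt1 hu.1
        have wt2 := bw1 X (γ + β) β _ u₀ wt1 hu.1
        have hz : (w₀ * u₀ - u₀ * w₀) * u₀ - u₀ * (w₀ * u₀ - u₀ * w₀) = 0 := by
          by_contra hne0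
          have e : γ + β + β = β + γ + β := by rw [add_comm γ β]
          rw [e] at wt2
          exact nr ⟨_, wt2, hne0⟩
        have hz2 : (⟨_, X.lie _ (X.lie w₀ hw.1.1 u₀ hu.1.1) u₀ hu.1.1⟩ : X.n) = 0 :=
          Subtype.ext hz
        refine h _ _ (tr β ⟨u₀, hu.1.1⟩ hu) (tr γ ⟨w₀, hw.1.1⟩ hw) ?_
        rw [← b1]
        refine Eq.trans b2.symm ?_
        refine Eq.trans (congrArg T hz2) ?_
        exact map_zero T
  · exact hRed (ρ ∘ₗ g) hρY ⟨_, hδ⟩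

end Pool.Agent.QSB.H70

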